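import Pool.Agent.Helper79.ZC.Stmts

/-!
# Module FAC: one factor of the characteristic function
-/

set_option autoImplicit false

namespace Pool.Agent.Helper79.ZC

open scoped Classical
open Filter Topology MeasureTheory

theorem fac_d1 (x : ℝ) : HasDerivAt (fun v : ℝ => Complex.exp (Complex.I * v))
    (Complex.I * Complex.exp (Complex.I * x)) x := by
  have h1 : HasDerivAt (fun v : ℝ => Complex.I * (v : ℂ)) (Complex.I * 1) x :=
    (Complex.ofRealCLM.hasDerivAt (x := x)).const_mul Complex.I
  have h2 := h1.cexp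
  have e : Complex.exp (Complex.I * (x : ℂ)) * (Complex.I * 1)
      = Complex.I * Complex.exp (Complex.I * x) := by ring
  rw [e] at h2
  exact h2

theorem fac_g (x : ℝ) (hx : 0 ≤ x) :
    ‖Complex.exp (Complex.I * x) - 1 - Complex.I * x‖ ≤ x ^ 2 / 2 := by
  have hd : ∀ v : ℝ, HasDerivAt (fun v : ℝ => Complex.exp (Complex.I * v) - 1 - Complex.I * v)
      (Complex.I * (Complex.exp (Complex.I * v) - 1)) v := by
    intro v
    have h1 : HasDerivAt (fun v : ℝ => Complex.I * (v : ℂ)) (Complex.I * 1) v :=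
      (Complex.ofRealCLM.hasDerivAt (x := v)).const_mul Complex.I
    have h2 := ((fac_d1 v).sub_const 1).sub h1
    have e : Complex.I * Complex.exp (Complex.I * (v : ℂ)) - Complex.I * 1
        = Complex.I * (Complex.exp (Complex.I * v) - 1) := by ring
    rw [e] at h2
    exact h2
  have hB : ∀ v : ℝ, HasDerivAt (fun v : ℝ => v ^ 2 / 2) v v := by
    intro v
    have := (hasDerivAt_pow 2 v).div_const 2
    have e : ((2 : ℕ) : ℝ) * v ^ (2 - 1) / 2 = v := by norm_num
    rw [e] at this
    exact this
  refine image_norm_le_of_norm_deriv_right_le_deriv_boundary (a := 0) (b := x)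
    (f := fun v : ℝ => Complex.exp (Complex.I * v) - 1 - Complex.I * v)
    (f' := fun v : ℝ => Complex.I * (Complex.exp (Complex.I * v) - 1))
    (B := fun v => v ^ 2 / 2) (B' := fun v => v)
    (fun v _ => (hd v).continuousAt.continuousWithinAt) (fun v _ => (hd v).hasDerivWithinAt)
    (by simp) hB ?_ ⟨hx, le_refl x⟩
  intro v hv
  rw [norm_mul, Complex.norm_I, one_mul]
  refine Real.norm_exp_I_mul_ofReal_sub_one_le.trans ?_
  rw [Real.norm_eq_abs, abs_of_nonneg hv.1]

theorem fac_f (x : ℝ) (hx : 0 ≤ x) :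
    ‖Complex.exp (Complex.I * x) - 1 - Complex.I * x + (x : ℂ) ^ 2 / 2‖ ≤ x ^ 3 / 6 := by
  have hd : ∀ v : ℝ, HasDerivAt
      (fun v : ℝ => Complex.exp (Complex.I * v) - 1 - Complex.I * v + (v : ℂ) ^ 2 / 2)
      (Complex.I * (Complex.exp (Complex.I * v) - 1 - Complex.I * v)) v := by
    intro v
    have h0 : HasDerivAt (fun v : ℝ => (v : ℂ)) 1 v := Complex.ofRealCLM.hasDerivAt (x := v)
    have h1 : HasDerivAt (fun v : ℝ => Complex.I * (v : ℂ)) (Complex.I * 1) v :=
      h0.const_mul Complex.I
    have h2 := (((fac_d1 v).sub_const 1).sub h1).add ((h0.pow 2).div_const 2)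
    have e : Complex.I * Complex.exp (Complex.I * (v : ℂ)) - Complex.I * 1
        + ((2 : ℕ) : ℂ) * (v : ℂ) ^ (2 - 1) * 1 / 2
        = Complex.I * (Complex.exp (Complex.I * v) - 1 - Complex.I * v) := by
      have : Complex.I * (Complex.I * (v : ℂ)) = -(v : ℂ) := by
        rw [← mul_assoc, Complex.I_mul_I]
        ring
      rw [mul_sub, this]
      norm_num
      ring
    rw [e] at h2
    exact h2
  have hB : ∀ v : ℝ, HasDerivAt (fun v : ℝ => v ^ 3 / 6) (v ^ 2 / 2) v := by
    intro v
    have := (hasDerivAt_pow 3 v).div_const 6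
    have e : ((3 : ℕ) : ℝ) * v ^ (3 - 1) / 6 = v ^ 2 / 2 := by norm_num; ring
    rw [e] at this
    exact this
  refine image_norm_le_of_norm_deriv_right_le_deriv_boundary (a := 0) (b := x)
    (f := fun v : ℝ => Complex.exp (Complex.I * v) - 1 - Complex.I * v + (v : ℂ) ^ 2 / 2)
    (f' := fun v : ℝ => Complex.I * (Complex.exp (Complex.I * v) - 1 - Complex.I * v))
    (B := fun v => v ^ 3 / 6) (B' := fun v => v ^ 2 / 2)
    (fun v _ => (hd v).continuousAt.continuousWithinAt) (fun v _ => (hd v).hasDerivWithinAt)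
    (by simp) hB ?_ ⟨hx, le_refl x⟩
  intro v hv
  rw [norm_mul, Complex.norm_I, one_mul]
  exact fac_g v hv.1

theorem fac_f' (x : ℝ) :
    ‖Complex.exp (Complex.I * x) - 1 - Complex.I * x + (x : ℂ) ^ 2 / 2‖ ≤ |x| ^ 3 / 6 := by
  rcases le_total 0 x with hx | hx
  · rw [abs_of_nonneg hx]
    exact fac_f x hx
  · rw [abs_of_nonpos hx]
    have h := fac_f (-x) (by linarith)
    have e : (starRingEnd ℂ) (Complex.exp (Complex.I * x) - 1 - Complex.I * x + (x : ℂ) ^ 2 / 2)
        = Complex.exp (Complex.I * ((-x : ℝ) : ℂ)) - 1 - Complex.I * ((-x : ℝ) : ℂ)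
          + ((-x : ℝ) : ℂ) ^ 2 / 2 := by
      rw [map_add, map_sub, map_sub, ← Complex.exp_conj, map_mul, Complex.conj_I,
        Complex.conj_ofReal, map_one, map_div₀, map_pow, Complex.conj_ofReal]
      have e2 : -Complex.I * (x : ℂ) = Complex.I * ((-x : ℝ) : ℂ) := by push_cast; ring
      rw [e2]
      push_cast
      rw [map_ofNat]
      ring
    rw [← Complex.norm_conj, e]
    exact h

theorem st_FAC : ST_FAC := by
  intro y u hy0 hy1
  set w : ℂ := (y : ℂ) with hw
  set z : ℂ := (y : ℂ) * Complex.exp (Complex.I * u) with hz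
  have hwn : ‖w‖ = y := by
    rw [hw, Complex.norm_real, Real.norm_eq_abs, abs_of_nonneg hy0]
  have hzn : ‖z‖ = y := by
    rw [hz, norm_mul, hwn, mul_comm Complex.I (u : ℂ), Complex.norm_exp_ofReal_mul_I, mul_one]
  have hw1 : ‖w‖ < 1 := by rw [hwn]; exact hy1
  have hz1 : ‖z‖ < 1 := by rw [hzn]; exact hy1
  have hwne : 1 - w ≠ 0 := by
    intro h
    have : w = 1 := (sub_eq_zero.1 h).symm
    rw [this, norm_one] at hw1
    exact lt_irrefl _ hw1
  have hzne : 1 - z ≠ 0 := by
    intro h
    have : z = 1 := (sub_eq_zero.1 h).symm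
    rw [this, norm_one] at hz1
    exact lt_irrefl _ hz1
  set Λ : ℂ := Complex.log (1 - w) - Complex.log (1 - z) with hΛ
  have hexp : Complex.exp Λ = ((1 - y : ℝ) : ℂ) / (1 - (y : ℂ) * Complex.exp (Complex.I * u)) := by
    rw [hΛ, Complex.exp_sub, Complex.exp_log hwne, Complex.exp_log hzne]
    push_cast
    rfl
  have hsum : HasSum (fun n : ℕ => z ^ n / n - w ^ n / n) Λ := by
    have h := (Complex.hasSum_taylorSeries_neg_log hz1).sub
      (Complex.hasSum_taylorSeries_neg_log hw1)
    have e : -Complex.log (1 - z) - -Complex.log (1 - w) = Λ := by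
      rw [hΛ]
      ring
    rw [e] at h
    exact h
  have hzpow : ∀ n : ℕ, z ^ n = w ^ n * Complex.exp (Complex.I * ((n * u : ℝ) : ℂ)) := by
    intro n
    rw [hz, mul_pow, ← Complex.exp_nat_mul]
    congr 2
    push_cast
    ring
  rw [← hexp]
  refine ⟨?_, ?_⟩
  · rw [Complex.norm_exp]
    apply Real.exp_le_exp.2
    have hre := Complex.hasSum_re hsum
    have hg : HasSum (fun n : ℕ => if n = 1 then -y * (1 - Real.cos u) else 0)
        (-y * (1 - Real.cos u)) := hasSum_ite_eq 1 _
    refine hasSum_le ?_ hre hg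
    intro n
    have hterm : (z ^ n / n - w ^ n / n).re = y ^ n / n * (Real.cos (n * u) - 1) := by
      have e1 : z ^ n / n - w ^ n / n = ((y ^ n / n : ℝ) : ℂ) *
          (Complex.exp (Complex.I * ((n * u : ℝ) : ℂ)) - 1) := by
        rw [hzpow n, hw]
        push_cast
        ring
      rw [e1, Complex.re_ofReal_mul, Complex.sub_re, mul_comm Complex.I, Complex.exp_ofReal_mul_I_re,
        Complex.one_re]
    rw [hterm]
    split_ifs with h1
    · subst h1
      simp only [Nat.cast_one, pow_one, div_one, one_mul]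
      linarith
    · apply mul_nonpos_of_nonneg_of_nonpos (by positivity)
      have := Real.cos_le_one (n * u)
      linarith
  · refine ⟨Λ - (Complex.I * (u * y / (1 - y) : ℝ) - (u ^ 2 * y / (1 - y) ^ 2 / 2 : ℝ)), ?_, ?_⟩
    · have hB : HasSum (fun n : ℕ => Complex.I * u * (w ^ n - if n = 0 then 1 else 0))
          (Complex.I * (u * y / (1 - y) : ℝ)) := by
        have h := ((hasSum_geometric_of_norm_lt_one hw1).sub
          (hasSum_ite_eq (0 : ℕ) (1 : ℂ))).mul_left (Complex.I * u)
        have e : Complex.I * u * ((1 - w)⁻¹ - 1) = Complex.I * (u * y / (1 - y) : ℝ) := by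
          have e2 : (1 - w)⁻¹ - 1 = w / (1 - w) := by
            field_simp
            ring
          rw [e2]
          push_cast
          rw [hw]
          ring
        rw [e] at h
        exact h
      have hQ : HasSum (fun n : ℕ => (u : ℂ) ^ 2 / 2 * (n * w ^ n))
          ((u ^ 2 * y / (1 - y) ^ 2 / 2 : ℝ) : ℂ) := by
        have h := (hasSum_coe_mul_geometric_of_norm_lt_one hw1).mul_left ((u : ℂ) ^ 2 / 2)
        have e : (u : ℂ) ^ 2 / 2 * (w / (1 - w) ^ 2) = ((u ^ 2 * y / (1 - y) ^ 2 / 2 : ℝ) : ℂ) := by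
          push_cast
          rw [hw]
          ring
        rw [e] at h
        exact h
      have hR := hsum.sub (hB.sub hQ)
      have hC : HasSum (fun n : ℕ => |u| ^ 3 / 3 * (((n + 1).choose 2 : ℕ) * y ^ n : ℝ))
          (|u| ^ 3 / 3 * (y / (1 - y) ^ 3)) := by
        apply HasSum.mul_left
        have hyn : ‖y‖ < 1 := by rw [Real.norm_eq_abs, abs_of_nonneg hy0]; exact hy1
        have h := (hasSum_choose_mul_geometric_of_norm_lt_one 2 hyn).mul_left y
        have h2 : HasSum (fun n : ℕ => (((n + 1 + 1).choose 2 : ℕ) * y ^ (n + 1) : ℝ))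
            (y / (1 - y) ^ 3) := by
          have e : y * (1 / (1 - y) ^ (2 + 1)) = y / (1 - y) ^ 3 := by ring
          rw [e] at h
          refine h.congr_fun ?_
          intro n
          show (((n + 2).choose 2 : ℕ) : ℝ) * y ^ (n + 1) = _
          rw [pow_succ]
          ring
        have h3 := (hasSum_nat_add_iff (f := fun n : ℕ => (((n + 1).choose 2 : ℕ) * y ^ n : ℝ))
          1).1 h2
        simpa using h3
      have hle := hR.norm_le_of_bounded hC ?_
      · refine hle.trans ?_
        have h1y : 0 < 1 - y := by linarith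
        have h3 : 0 ≤ |u| ^ 3 * y / (1 - y) ^ 3 := by positivity
        have e : |u| ^ 3 / 3 * (y / (1 - y) ^ 3) = (|u| ^ 3 * y / (1 - y) ^ 3) / 3 := by ring
        rw [e]
        linarith
      · intro n
        rcases Nat.eq_zero_or_pos n with h0 | hpos
        · subst h0
          simp
        · have hn0 : (n : ℂ) ≠ 0 := by exact_mod_cast hpos.ne'
          have hnr : (0 : ℝ) < n := by exact_mod_cast hpos
          have e : z ^ n / n - w ^ n / n - (Complex.I * u * (w ^ n - if n = 0 then 1 else 0)
              - (u : ℂ) ^ 2 / 2 * (n * w ^ n))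
              = w ^ n / n * (Complex.exp (Complex.I * ((n * u : ℝ) : ℂ)) - 1
                - Complex.I * ((n * u : ℝ) : ℂ) + ((n * u : ℝ) : ℂ) ^ 2 / 2) := by
            rw [hzpow n, if_neg hpos.ne']
            push_cast
            field_simp
            ring
          rw [e, norm_mul, norm_div, norm_pow, hwn, Complex.norm_natCast]
          have h1 := fac_f' (n * u)
          rw [abs_mul, abs_of_pos hnr] at h1
          calc y ^ n / n * ‖_‖ ≤ y ^ n / n * (((n : ℝ) * |u|) ^ 3 / 6) :=
                mul_le_mul_of_nonneg_left h1 (by positivity)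
            _ = |u| ^ 3 / 3 * ((n : ℝ) * n / 2 * y ^ n) := by
                field_simp
                ring
            _ ≤ |u| ^ 3 / 3 * (((n + 1).choose 2 : ℕ) * y ^ n : ℝ) := by
                apply mul_le_mul_of_nonneg_left _ (by positivity)
                apply mul_le_mul_of_nonneg_right _ (by positivity)
                rw [Nat.cast_choose_two]
                push_cast
                nlinarith
    · congr 1
      ring

end Pool.Agent.Helper79.ZC
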