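import Pool.Agent.Helper79.ZC.Stmts

/-!
# Module KAT: upper bounds for the probability of being a `t`-core
-/

set_option autoImplicit false

namespace Pool.Agent.Helper79.ZC

open scoped Classical
open Filter Topology MeasureTheory

theorem kat_pn_pos (n : ℕ) : 0 < pn n := by
  unfold pn
  exact Fintype.card_pos_iff.2 ⟨Nat.Partition.indiscrete n⟩

theorem kat_log {n : ℕ} (hn : 4 ≤ n) : 1 ≤ Real.log n := by
  have h : (4 : ℝ) ≤ n := by exact_mod_cast hn
  rw [Real.le_log_iff_exp_le (by linarith)]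
  have := Real.exp_one_lt_d9
  linarith

theorem kat_al_sqrt {n : ℕ} (hn : 4 ≤ n) : al n * Real.sqrt n ≤ 3 / 2 := by
  have hn0 : (0 : ℝ) < n := by exact_mod_cast (by omega : 0 < n)
  have hs0 : 0 < Real.sqrt n := Real.sqrt_pos.2 hn0
  unfold al
  rw [Real.sqrt_mul (by norm_num : (0 : ℝ) ≤ 6), div_mul_eq_mul_div,
    div_le_iff₀ (by positivity)]
  have h7 : (2.4 : ℝ) ≤ Real.sqrt 6 := by
    apply Real.le_sqrt_of_sq_le
    norm_num
  have h8 := Real.pi_lt_d2
  nlinarith

theorem st_KAT (hC : ST_CNT) (hR : ST_RAT) : ST_KAT := by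
  refine ⟨4000, by norm_num, ?_⟩
  filter_upwards [hR 4 1 (by norm_num) one_pos, eventually_ge_atTop 4] with n hn h4
  have hn4 : (4 : ℝ) ≤ n := by exact_mod_cast h4
  have hn0 : (0 : ℝ) < n := by linarith
  have hs2 : (2 : ℝ) ≤ Real.sqrt n := by
    apply Real.le_sqrt_of_sq_le
    linarith
  have hsq : Real.sqrt n * Real.sqrt n = n := Real.mul_self_sqrt hn0.le
  have hlog := kat_log h4
  have hpn : (0 : ℝ) < pn n := by exact_mod_cast kat_pn_pos n
  have hal : 0 < al n := by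
    unfold al
    have := Real.pi_pos
    positivity
  have key : ∀ t : ℕ, Real.sqrt n ≤ t → (t : ℝ) ≤ 2 * Real.sqrt n * Real.log n →
      (cn t n : ℝ) / pn n ≤ 8 * Real.exp (2 * (al n * t)) / (t : ℝ) ^ 2 := by
    intro t ht1 ht2
    have ht : (2 : ℝ) ≤ t := hs2.trans ht1
    have htn : 1 ≤ t := by
      have : (1 : ℝ) ≤ t := by linarith
      exact_mod_cast this
    have h1 := hC.1 n t 2 htn
    obtain ⟨-, h2, -⟩ := hn (2 * t) (by push_cast; linarith)
    have h3 : (pn (n + 2 * t) : ℝ) / pn n ≤ 2 * Real.exp (al n * ((2 * t : ℕ) : ℝ)) := by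
      have := (abs_le.1 h2).2
      linarith
    have h4 : (cn t n : ℝ) * (t.choose 2 : ℝ) ≤ pn (n + 2 * t) := by exact_mod_cast h1
    have h5 : ((t.choose 2 : ℕ) : ℝ) = (t : ℝ) * (t - 1) / 2 := by
      rw [Nat.cast_choose_two]
    rw [h5] at h4
    have h6 : (t : ℝ) ^ 2 / 4 ≤ (t : ℝ) * (t - 1) / 2 := by nlinarith
    have h7 : (cn t n : ℝ) * ((t : ℝ) ^ 2 / 4) ≤ pn (n + 2 * t) :=
      (mul_le_mul_of_nonneg_left h6 (Nat.cast_nonneg _)).trans h4
    have h8 : al n * ((2 * t : ℕ) : ℝ) = 2 * (al n * t) := by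
      push_cast
      ring
    rw [h8, div_le_iff₀ hpn] at h3
    rw [div_le_div_iff₀ hpn (by positivity)]
    nlinarith
  refine ⟨?_, ?_⟩
  · intro t ht1 ht2
    have ht : (2 : ℝ) ≤ t := hs2.trans ht1
    refine (key t ht1 ht2).trans ?_
    unfold EE
    have h9 : ((t : ℝ) * Real.exp (-al n * t)) ^ 2 * Real.exp (2 * (al n * t)) = (t : ℝ) ^ 2 := by
      rw [mul_pow, ← Real.exp_nat_mul, mul_assoc, ← Real.exp_add]
      have : ((2 : ℕ) : ℝ) * (-al n * t) + 2 * (al n * t) = 0 := by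
        push_cast
        ring
      rw [this, Real.exp_zero, mul_one]
    have hE := Real.exp_pos (2 * (al n * t))
    have hE2 : 0 < ((t : ℝ) * Real.exp (-al n * t)) ^ 2 := by positivity
    rw [div_le_div_iff₀ (by positivity) hE2]
    nlinarith
  · intro t ht1 ht2
    have ht0 : (0 : ℝ) < t := by exact_mod_cast ht1
    set k := ⌈Real.sqrt n / t⌉₊ with hk
    have hk1 : Real.sqrt n / t ≤ k := Nat.le_ceil _
    have hk2 : (k : ℝ) < Real.sqrt n / t + 1 := Nat.ceil_lt_add_one (by positivity)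
    have hk0 : 1 ≤ k := by
      have : (0 : ℝ) < k := lt_of_lt_of_le (by positivity) hk1
      exact_mod_cast this
    have h1 : Real.sqrt n ≤ ((k * t : ℕ) : ℝ) := by
      push_cast
      rwa [div_le_iff₀ ht0] at hk1
    have h2 : ((k * t : ℕ) : ℝ) ≤ 2 * Real.sqrt n := by
      push_cast
      have h3 : (k : ℝ) * t < (Real.sqrt n / t + 1) * t := mul_lt_mul_of_pos_right hk2 ht0
      have h4 : (Real.sqrt n / t + 1) * t = Real.sqrt n + t := by field_simp
      linarith
    have h3 : ((k * t : ℕ) : ℝ) ≤ 2 * Real.sqrt n * Real.log n := by nlinarith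
    have h5 := key (k * t) h1 h3
    have h6 : (cn t n : ℝ) / pn n ≤ (cn (k * t) n : ℝ) / pn n := by
      apply div_le_div_of_nonneg_right _ hpn.le
      exact_mod_cast hC.2.1 n t k hk0
    refine h6.trans (h5.trans ?_)
    have h7 : Real.exp (2 * (al n * ((k * t : ℕ) : ℝ))) ≤ 500 := by
      have h8 : 2 * (al n * ((k * t : ℕ) : ℝ)) ≤ 6 := by
        have h9 : al n * ((k * t : ℕ) : ℝ) ≤ al n * (2 * Real.sqrt n) :=
          mul_le_mul_of_nonneg_left h2 hal.le
        have h10 := kat_al_sqrt h4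
        nlinarith
      have h11 : Real.exp 6 ≤ 500 := by
        have h12 : Real.exp 6 = Real.exp 1 ^ 6 := by
          rw [← Real.exp_nat_mul]
          norm_num
        rw [h12]
        have h13 := Real.exp_one_lt_d9
        calc Real.exp 1 ^ 6 ≤ (2.7182818286 : ℝ) ^ 6 :=
              pow_le_pow_left₀ (Real.exp_pos 1).le h13.le 6
          _ ≤ 500 := by norm_num
      exact (Real.exp_le_exp.2 h8).trans h11
    have h14 : (n : ℝ) ≤ ((k * t : ℕ) : ℝ) ^ 2 := by
      rw [← hsq, sq]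
      exact mul_le_mul h1 h1 (Real.sqrt_nonneg _) (Nat.cast_nonneg _)
    exact div_le_div₀ (by norm_num) (by linarith) hn0 h14

end Pool.Agent.Helper79.ZC
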