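import Pool.Agent.Helper79.ZC.Stmts

/-!
# Module LIP: the Boltzmann probabilities vary slowly
-/

set_option autoImplicit false

namespace Pool.Agent.Helper79.ZC

open scoped Classical
open Filter Topology MeasureTheory

theorem lip_cont (M m : ℕ) {α : ℝ} (hα : 0 < α) :
    Continuous (fun θ : ℝ => phi M α θ * Complex.exp (-Complex.I * θ * m)) := by
  apply Continuous.mul
  · unfold phi
    apply continuous_finsetProd
    intro k hk
    have hk1 : 1 ≤ k := (Finset.mem_Icc.1 hk).1
    have hk0 : (0 : ℝ) < k := by exact_mod_cast hk1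
    apply Continuous.div continuous_const
    · fun_prop
    · intro θ h
      have h1 : Complex.exp (-(α : ℂ) * k + Complex.I * θ * k) = 1 := (sub_eq_zero.1 h).symm
      have h2 : ‖Complex.exp (-(α : ℂ) * k + Complex.I * θ * k)‖ = Real.exp (-α * k) := by
        rw [Complex.norm_exp]
        congr 1
        simp
      rw [h1, norm_one] at h2
      have h3 : Real.exp (-α * k) < 1 := by
        rw [Real.exp_lt_one_iff]
        nlinarith
      linarith
  · fun_prop

theorem lip_gauss {b : ℝ} (hb : 0 < b) (R : ℝ) (hR : 0 ≤ R) :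
    ∫ θ in (-R)..R, |θ| * Real.exp (-b * θ ^ 2) ≤ 1 / b := by
  have hc : Continuous (fun θ : ℝ => |θ| * Real.exp (-b * θ ^ 2)) := by fun_prop
  have hd : ∀ θ : ℝ, HasDerivAt (fun θ : ℝ => -(Real.exp (-b * θ ^ 2) / (2 * b)))
      (θ * Real.exp (-b * θ ^ 2)) θ := by
    intro θ
    have h1 : HasDerivAt (fun θ : ℝ => -b * θ ^ 2) (-b * (2 * θ)) θ := by
      have := (hasDerivAt_pow 2 θ).const_mul (-b)
      simpa using this
    have h2 := (h1.exp.div_const (2 * b)).neg
    have e : -(Real.exp (-b * θ ^ 2) * (-b * (2 * θ)) / (2 * b))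
        = θ * Real.exp (-b * θ ^ 2) := by
      field_simp
    rw [e] at h2
    exact h2
  have hd' : ∀ θ : ℝ, HasDerivAt (fun θ : ℝ => Real.exp (-b * θ ^ 2) / (2 * b))
      (-(θ * Real.exp (-b * θ ^ 2))) θ := by
    intro θ
    have h1 : HasDerivAt (fun θ : ℝ => -b * θ ^ 2) (-b * (2 * θ)) θ := by
      have := (hasDerivAt_pow 2 θ).const_mul (-b)
      simpa using this
    have h2 := h1.exp.div_const (2 * b)
    have e : Real.exp (-b * θ ^ 2) * (-b * (2 * θ)) / (2 * b)
        = -(θ * Real.exp (-b * θ ^ 2)) := by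
      field_simp
    rw [e] at h2
    exact h2
  have hci : Continuous (fun θ : ℝ => θ * Real.exp (-b * θ ^ 2)) := by fun_prop
  have h1 : ∫ θ in (0 : ℝ)..R, |θ| * Real.exp (-b * θ ^ 2) ≤ 1 / (2 * b) := by
    have e : ∫ θ in (0 : ℝ)..R, |θ| * Real.exp (-b * θ ^ 2)
        = ∫ θ in (0 : ℝ)..R, θ * Real.exp (-b * θ ^ 2) := by
      apply intervalIntegral.integral_congr
      intro θ hθ
      rw [Set.uIcc_of_le hR] at hθ
      show |θ| * _ = θ * _
      rw [abs_of_nonneg hθ.1]
    rw [e, intervalIntegral.integral_eq_sub_of_hasDerivAt (fun θ _ => hd θ)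
      (hci.intervalIntegrable _ _)]
    have h3 := Real.exp_pos (-b * R ^ 2)
    have h4 : 0 ≤ Real.exp (-b * R ^ 2) / (2 * b) := by positivity
    have h5 : Real.exp (-b * (0 : ℝ) ^ 2) = 1 := by simp
    rw [h5]
    linarith
  have h2 : ∫ θ in (-R)..0, |θ| * Real.exp (-b * θ ^ 2) ≤ 1 / (2 * b) := by
    have e : ∫ θ in (-R)..0, |θ| * Real.exp (-b * θ ^ 2)
        = ∫ θ in (-R)..0, -(θ * Real.exp (-b * θ ^ 2)) := by
      apply intervalIntegral.integral_congr
      intro θ hθ
      rw [Set.uIcc_of_le (by linarith)] at hθ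
      show |θ| * _ = -(θ * _)
      rw [abs_of_nonpos hθ.2]
      ring
    rw [e, intervalIntegral.integral_eq_sub_of_hasDerivAt (fun θ _ => hd' θ)
      (hci.neg.intervalIntegrable _ _)]
    have h3 := Real.exp_pos (-b * (-R) ^ 2)
    have h4 : 0 ≤ Real.exp (-b * (-R) ^ 2) / (2 * b) := by positivity
    have h5 : Real.exp (-b * (0 : ℝ) ^ 2) = 1 := by simp
    rw [h5]
    linarith
  rw [← intervalIntegral.integral_add_adjacent_intervals (hc.intervalIntegrable (-R) 0)
    (hc.intervalIntegrable 0 R)]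
  have h6 : 1 / (2 * b) + 1 / (2 * b) = 1 / b := by
    field_simp
    norm_num
  linarith

theorem st_LIP (hI : ST_INV) (hD : ST_DEC) : ST_LIP := by
  obtain ⟨c, C0, hc, hC0, hdec⟩ := hD
  have hpi := Real.pi_pos
  refine ⟨C0 * (1 / (2 * Real.pi * c) + 6 * Real.pi / c ^ 3), by positivity, ?_⟩
  intro M α hα hα1 hM m m'
  have hsub : ((qq M α m : ℝ) : ℂ) - ((qq M α m' : ℝ) : ℂ) = ((1 / (2 * Real.pi) : ℝ) : ℂ) *
      ∫ θ in (-Real.pi)..Real.pi, phi M α θ * (Complex.exp (-Complex.I * θ * m)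
        - Complex.exp (-Complex.I * θ * m')) := by
    rw [hI M m α hα, hI M m' α hα, ← mul_sub, ← intervalIntegral.integral_sub
      ((lip_cont M m hα).intervalIntegrable _ _) ((lip_cont M m' hα).intervalIntegrable _ _)]
    congr 1
    apply intervalIntegral.integral_congr
    intro θ _
    show _ = phi M α θ * _
    ring
  have hnorm : |qq M α m - qq M α m'| = ‖((qq M α m : ℝ) : ℂ) - ((qq M α m' : ℝ) : ℂ)‖ := by
    rw [← Complex.ofReal_sub, Complex.norm_real, Real.norm_eq_abs]
  set K : ℝ := |(m : ℝ) - m'| with hK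
  have hK0 : 0 ≤ K := abs_nonneg _
  set b : ℝ := c / α ^ 3 with hb
  have hb0 : 0 < b := by positivity
  have hosc : ∀ θ : ℝ, ‖Complex.exp (-Complex.I * θ * m) - Complex.exp (-Complex.I * θ * m')‖
      ≤ |θ| * K := by
    intro θ
    have e : Complex.exp (-Complex.I * θ * m) - Complex.exp (-Complex.I * θ * m')
        = Complex.exp (((-(θ * m') : ℝ) : ℂ) * Complex.I) *
          (Complex.exp (Complex.I * ((-(θ * ((m : ℝ) - m')) : ℝ) : ℂ)) - 1) := by
      rw [mul_sub, mul_one, ← Complex.exp_add]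
      congr 2
      · push_cast
        ring
      · push_cast
        ring
    rw [e, norm_mul, Complex.norm_exp_ofReal_mul_I, one_mul]
    refine Real.norm_exp_I_mul_ofReal_sub_one_le.trans ?_
    rw [Real.norm_eq_abs, abs_neg, abs_mul]
  have hbound : ∀ θ ∈ Set.Ioc (-Real.pi) Real.pi, ‖phi M α θ * (Complex.exp (-Complex.I * θ * m)
        - Complex.exp (-Complex.I * θ * m'))‖ ≤
      C0 * K * (|θ| * Real.exp (-b * θ ^ 2)) + C0 * K * (Real.pi * Real.exp (-c / α)) := by
    intro θ hθ
    have habs : |θ| ≤ Real.pi := abs_le.2 ⟨hθ.1.le, hθ.2⟩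
    rw [norm_mul]
    have h1 := hdec M α θ hα hα1 hM habs
    have h2 := hosc θ
    have h3 : Real.exp (-c * θ ^ 2 / α ^ 3) = Real.exp (-b * θ ^ 2) := by
      congr 1
      rw [hb]
      ring
    rw [h3] at h1
    have hE1 := Real.exp_pos (-b * θ ^ 2)
    have hE2 := Real.exp_pos (-c / α)
    calc ‖phi M α θ‖ * ‖Complex.exp (-Complex.I * θ * m) - Complex.exp (-Complex.I * θ * m')‖
        ≤ (C0 * (Real.exp (-b * θ ^ 2) + Real.exp (-c / α))) * (|θ| * K) :=
          mul_le_mul h1 h2 (norm_nonneg _) (by positivity)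
      _ = C0 * K * (|θ| * Real.exp (-b * θ ^ 2)) + C0 * K * (|θ| * Real.exp (-c / α)) := by ring
      _ ≤ C0 * K * (|θ| * Real.exp (-b * θ ^ 2)) + C0 * K * (Real.pi * Real.exp (-c / α)) := by
          have h4 : C0 * K * (|θ| * Real.exp (-c / α)) ≤ C0 * K * (Real.pi * Real.exp (-c / α)) := by
            apply mul_le_mul_of_nonneg_left _ (by positivity)
            exact mul_le_mul_of_nonneg_right habs hE2.le
          linarith
  have hcont : Continuous (fun θ : ℝ => C0 * K * (|θ| * Real.exp (-b * θ ^ 2))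
      + C0 * K * (Real.pi * Real.exp (-c / α))) := by fun_prop
  have hint := intervalIntegral.norm_integral_le_of_norm_le (μ := volume)
    (show -Real.pi ≤ Real.pi by linarith)
    (Filter.Eventually.of_forall hbound) (hcont.intervalIntegrable (-Real.pi) Real.pi)
  have hval : ∫ θ in (-Real.pi)..Real.pi, (C0 * K * (|θ| * Real.exp (-b * θ ^ 2))
      + C0 * K * (Real.pi * Real.exp (-c / α)))
      = C0 * K * (∫ θ in (-Real.pi)..Real.pi, |θ| * Real.exp (-b * θ ^ 2))
        + 2 * Real.pi * (C0 * K * (Real.pi * Real.exp (-c / α))) := by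
    rw [intervalIntegral.integral_add, intervalIntegral.integral_const_mul,
      intervalIntegral.integral_const, smul_eq_mul]
    · ring
    · exact (by fun_prop : Continuous (fun θ : ℝ =>
        C0 * K * (|θ| * Real.exp (-b * θ ^ 2)))).intervalIntegrable _ _
    · exact intervalIntegrable_const
  have hexp : Real.exp (-c / α) ≤ 6 * α ^ 3 / c ^ 3 := by
    have h1 := Real.pow_div_factorial_le_exp (c / α) (by positivity) 3
    have h2 : ((Nat.factorial 3 : ℕ) : ℝ) = 6 := by norm_num [Nat.factorial]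
    rw [h2] at h1
    have h3 : Real.exp (-c / α) = (Real.exp (c / α))⁻¹ := by
      rw [← Real.exp_neg]
      congr 1
      ring
    rw [h3]
    have h4 : 6 * α ^ 3 / c ^ 3 = ((c / α) ^ 3 / 6)⁻¹ := by
      field_simp
    rw [h4]
    exact inv_anti₀ (by positivity) h1
  have hg := lip_gauss hb0 Real.pi hpi.le
  have hbinv : 1 / b = α ^ 3 / c := by
    rw [hb]
    field_simp
  rw [hbinv] at hg
  rw [hnorm, hsub, norm_mul, Complex.norm_real, Real.norm_eq_abs, abs_of_pos (by positivity)]
  rw [hval] at hint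
  have hCK : 0 ≤ C0 * K := by positivity
  calc 1 / (2 * Real.pi) * ‖∫ θ in (-Real.pi)..Real.pi, phi M α θ *
        (Complex.exp (-Complex.I * θ * m) - Complex.exp (-Complex.I * θ * m'))‖
      ≤ 1 / (2 * Real.pi) * (C0 * K * (∫ θ in (-Real.pi)..Real.pi, |θ| * Real.exp (-b * θ ^ 2))
        + 2 * Real.pi * (C0 * K * (Real.pi * Real.exp (-c / α)))) :=
        mul_le_mul_of_nonneg_left hint (by positivity)
    _ ≤ 1 / (2 * Real.pi) * (C0 * K * (α ^ 3 / c)
        + 2 * Real.pi * (C0 * K * (Real.pi * (6 * α ^ 3 / c ^ 3)))) := by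
        apply mul_le_mul_of_nonneg_left _ (by positivity)
        apply add_le_add
        · exact mul_le_mul_of_nonneg_left hg hCK
        · apply mul_le_mul_of_nonneg_left _ (by positivity)
          apply mul_le_mul_of_nonneg_left _ hCK
          exact mul_le_mul_of_nonneg_left hexp hpi.le
    _ = C0 * (1 / (2 * Real.pi * c) + 6 * Real.pi / c ^ 3) * α ^ 3 * K := by
        field_simp

end Pool.Agent.Helper79.ZC
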