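import Pool.Agent.Helper79.ZC.Stmts

/-!
# Module TAIL: the two tails of the sum over `t`
-/

set_option autoImplicit false

namespace Pool.Agent.Helper79.ZC

open scoped Classical
open Filter Topology MeasureTheory

theorem tail_one_sub {x : ℝ} (h0 : 0 < x) (h1 : x ≤ 1) : x / 2 ≤ 1 - Real.exp (-x) := by
  have h2 : 1 + x ≤ Real.exp x := by linarith [Real.add_one_le_exp x]
  have h3 : Real.exp (-x) ≤ 1 / (1 + x) := by
    rw [Real.exp_neg, ← one_div]
    exact one_div_le_one_div_of_le (by linarith) h2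
  have h4 : 1 / (1 + x) ≤ 1 - x / 2 := by
    rw [div_le_iff₀ (by linarith)]
    nlinarith
  linarith

theorem tail_pow (a : ℝ) (t : ℕ) : Real.exp (-a * t) = Real.exp (-a) ^ t := by
  rw [← Real.exp_nat_mul]
  congr 1
  ring

theorem tail_pow' (a : ℝ) (t : ℕ) : Real.exp (a * t) = Real.exp a ^ t := by
  rw [← Real.exp_nat_mul]
  congr 1
  ring

theorem tail_geo {a : ℝ} (h0 : 0 < a) (h1 : a ≤ 1) (A : Finset ℕ) (m : ℕ) (hA : ∀ t ∈ A, m ≤ t) :
    ∑ t ∈ A, Real.exp (-a * t) ≤ Real.exp (-a * m) * (2 / a) := by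
  have hr1 : Real.exp (-a) < 1 := by
    rw [Real.exp_lt_one_iff]
    linarith
  have hr0 : 0 < Real.exp (-a) := Real.exp_pos _
  have hsub : A ⊆ Finset.Ico m (A.sup id + 1) := by
    intro t ht
    rw [Finset.mem_Ico]
    exact ⟨hA t ht, Nat.lt_succ_of_le (Finset.le_sup (f := id) ht)⟩
  calc ∑ t ∈ A, Real.exp (-a * t) ≤ ∑ t ∈ Finset.Ico m (A.sup id + 1), Real.exp (-a * t) :=
        Finset.sum_le_sum_of_subset_of_nonneg hsub (fun _ _ _ => (Real.exp_pos _).le)
    _ = ∑ t ∈ Finset.Ico m (A.sup id + 1), Real.exp (-a) ^ t :=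
        Finset.sum_congr rfl fun t _ => tail_pow a t
    _ ≤ Real.exp (-a) ^ m / (1 - Real.exp (-a)) := geom_sum_Ico_le_of_lt_one hr0.le hr1
    _ ≤ Real.exp (-a) ^ m * (2 / a) := by
        rw [div_eq_mul_inv]
        apply mul_le_mul_of_nonneg_left _ (by positivity)
        rw [← one_div, div_le_div_iff₀ (by linarith) h0]
        linarith [tail_one_sub h0 h1]
    _ = Real.exp (-a * m) * (2 / a) := by rw [tail_pow]

theorem tail_geo' {a : ℝ} (h0 : 0 < a) (h1 : a ≤ 1) (A : Finset ℕ) (m : ℕ) (hA : ∀ t ∈ A, t ≤ m) :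
    ∑ t ∈ A, Real.exp (a * t) ≤ Real.exp (a * m) * (2 / a) := by
  have hR1 : 1 < Real.exp a := by
    rw [← Real.exp_zero]
    exact Real.exp_lt_exp.2 h0
  have hsub : A ⊆ Finset.range (m + 1) := by
    intro t ht
    rw [Finset.mem_range]
    exact Nat.lt_succ_of_le (hA t ht)
  have hRne : Real.exp a ≠ 1 := hR1.ne'
  have hR0 : 0 < Real.exp a - 1 := by linarith
  calc ∑ t ∈ A, Real.exp (a * t) ≤ ∑ t ∈ Finset.range (m + 1), Real.exp (a * t) :=
        Finset.sum_le_sum_of_subset_of_nonneg hsub (fun _ _ _ => (Real.exp_pos _).le)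
    _ = ∑ t ∈ Finset.range (m + 1), Real.exp a ^ t :=
        Finset.sum_congr rfl fun t _ => tail_pow' a t
    _ = (Real.exp a ^ (m + 1) - 1) / (Real.exp a - 1) := geom_sum_eq hRne _
    _ ≤ Real.exp a ^ (m + 1) / (Real.exp a - 1) := by
        apply div_le_div_of_nonneg_right _ hR0.le
        linarith
    _ ≤ Real.exp a ^ m * (2 / a) := by
        rw [div_le_iff₀ hR0, pow_succ, mul_assoc]
        apply mul_le_mul_of_nonneg_left _ (by positivity)
        have h2 := tail_one_sub h0 h1
        have h3 : Real.exp a * Real.exp (-a) = 1 := by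
          rw [← Real.exp_add, add_neg_cancel, Real.exp_zero]
        have h4 : Real.exp a * (a / 2) ≤ Real.exp a - 1 := by
          have := mul_le_mul_of_nonneg_left h2 (Real.exp_pos a).le
          rw [mul_sub, h3, mul_one] at this
          exact this
        rw [div_mul_eq_mul_div, le_div_iff₀ h0]
        nlinarith
    _ = Real.exp (a * m) * (2 / a) := by rw [tail_pow']

theorem tail_ev (B : ℝ) (hB : 1 < B) : ∀ᶠ n : ℕ in atTop,
    3 ≤ n ∧ 3 * B * (Real.log n) ^ 2 ≤ (n : ℝ) ^ (1 / 4 : ℝ) := by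
  have h1 := (isLittleO_log_rpow_rpow_atTop (s := (1 / 4 : ℝ)) 2 (by norm_num)).bound
    (show (0 : ℝ) < 1 / (3 * B) by positivity)
  have h2 := (tendsto_natCast_atTop_atTop (R := ℝ)).eventually h1
  filter_upwards [h2, eventually_ge_atTop 3] with n hn h3
  refine ⟨h3, ?_⟩
  have hn1 : (1 : ℝ) ≤ n := by
    have : (3 : ℝ) ≤ n := by exact_mod_cast h3
    linarith
  have hl : 0 ≤ Real.log n := Real.log_nonneg hn1
  have hp : 0 ≤ (n : ℝ) ^ (1 / 4 : ℝ) := by positivity
  rw [Real.norm_eq_abs, Real.norm_eq_abs, abs_of_nonneg hp,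
    show ((2 : ℝ)) = ((2 : ℕ) : ℝ) by norm_num, Real.rpow_natCast, abs_of_nonneg (by positivity)]
    at hn
  have h5 : 3 * B * (Real.log n) ^ 2 ≤ 3 * B * (1 / (3 * B) * (n : ℝ) ^ (1 / 4 : ℝ)) :=
    mul_le_mul_of_nonneg_left hn (by positivity)
  have h6 : 3 * B * (1 / (3 * B) * (n : ℝ) ^ (1 / 4 : ℝ)) = (n : ℝ) ^ (1 / 4 : ℝ) := by
    field_simp
  rw [h6] at h5
  exact h5

theorem tail_al_pos {n : ℕ} (hn : 3 ≤ n) : 0 < al n := by
  have : (0 : ℝ) < n := by exact_mod_cast (by omega : 0 < n)
  unfold al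
  have := Real.pi_pos
  positivity

theorem tail_al_le {n : ℕ} (hn : 3 ≤ n) : al n ≤ 1 := by
  have h : (3 : ℝ) ≤ n := by exact_mod_cast hn
  unfold al
  rw [div_le_one (Real.sqrt_pos.2 (by linarith))]
  apply Real.le_sqrt_of_sq_le
  have := Real.pi_lt_d2
  have := Real.pi_pos
  nlinarith

theorem tail_log {n : ℕ} (hn : 3 ≤ n) : 1 ≤ Real.log n := by
  have h : (3 : ℝ) ≤ n := by exact_mod_cast hn
  rw [Real.le_log_iff_exp_le (by linarith)]
  have := Real.exp_one_lt_d9
  linarith

theorem tail_sqrt_exp {n : ℕ} (hn : 3 ≤ n) : Real.sqrt n = Real.exp (1 / 2 * Real.log n) := by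
  have h : (0 : ℝ) < n := by exact_mod_cast (by omega : 0 < n)
  rw [Real.sqrt_eq_rpow, Real.rpow_def_of_pos h]
  congr 1
  ring

/-- first tail -/
theorem tail_one {B : ℝ} (hB : 1 < B) {n : ℕ} (hn : 3 ≤ n) :
    ∑ t ∈ (Finset.Icc 1 n).filter (fun t : ℕ => Real.sqrt n ≤ t ∧
      (t : ℝ) ≤ 2 * Real.sqrt n * Real.log n ∧ EE n t < 1 / B), EE n t / t
    ≤ 4 / (B * Real.log n) := by
  set A := (Finset.Icc 1 n).filter (fun t : ℕ => Real.sqrt n ≤ t ∧
      (t : ℝ) ≤ 2 * Real.sqrt n * Real.log n ∧ EE n t < 1 / B) with hA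
  have ha := tail_al_pos hn
  have ha1 := tail_al_le hn
  have hl := tail_log hn
  have hB0 : 0 < B := by linarith
  have heq : ∑ t ∈ A, EE n t / t = ∑ t ∈ A, Real.exp (-(al n) * t) := by
    refine Finset.sum_congr rfl fun t ht => ?_
    have ht1 : 1 ≤ t := (Finset.mem_Icc.1 (Finset.mem_filter.1 ht).1).1
    have ht0 : (t : ℝ) ≠ 0 := by
      have : (1 : ℝ) ≤ t := by exact_mod_cast ht1
      linarith
    unfold EE
    field_simp
  rw [heq]
  rcases A.eq_empty_or_nonempty with he | hne
  · rw [he, Finset.sum_empty]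
    positivity
  · have hmem := A.min'_mem hne
    set m := A.min' hne with hm
    obtain ⟨hm1, hm2, -, hm3⟩ := Finset.mem_filter.1 hmem
    have h1m : (1 : ℝ) ≤ m := by exact_mod_cast (Finset.mem_Icc.1 hm1).1
    have hm0 : (0 : ℝ) < m := by linarith
    unfold EE at hm3
    have hexp : Real.exp (-(al n) * m) < 1 / (B * m) := by
      rw [lt_div_iff₀ (by positivity)]
      rw [lt_div_iff₀ hB0] at hm3
      linarith
    have hlog : 1 / 2 * Real.log n ≤ al n * m := by
      rw [tail_sqrt_exp hn] at hm2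
      have h1 : (m : ℝ) * Real.exp (-(al n) * m) < 1 := by
        refine hm3.trans ?_
        rw [div_lt_one hB0]
        exact hB
      have h2 : (m : ℝ) < Real.exp (al n * m) := by
        have h3 : Real.exp (-(al n) * m) * Real.exp (al n * m) = 1 := by
          rw [← Real.exp_add]
          have : -(al n) * m + al n * m = 0 := by ring
          rw [this, Real.exp_zero]
        have h4 := mul_lt_mul_of_pos_right h1 (Real.exp_pos (al n * m))
        rw [one_mul, mul_assoc, h3, mul_one] at h4
        exact h4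
      exact (Real.exp_le_exp.1 (hm2.trans h2.le))
    calc ∑ t ∈ A, Real.exp (-(al n) * t) ≤ Real.exp (-(al n) * m) * (2 / al n) :=
          tail_geo ha ha1 A m fun t ht => A.min'_le t ht
      _ ≤ 1 / (B * m) * (2 / al n) := by
          apply mul_le_mul_of_nonneg_right hexp.le
          positivity
      _ = 2 / (B * (al n * m)) := by
          field_simp
      _ ≤ 2 / (B * (1 / 2 * Real.log n)) := by
          apply div_le_div_of_nonneg_left (by norm_num) (by positivity)
          exact mul_le_mul_of_nonneg_left hlog hB0.le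
      _ = 4 / (B * Real.log n) := by
          field_simp
          norm_num

/-- second tail -/
theorem tail_two {B : ℝ} (hB : 1 < B) {n : ℕ} (hn : 3 ≤ n)
    (hev : 3 * B * (Real.log n) ^ 2 ≤ (n : ℝ) ^ (1 / 4 : ℝ)) :
    ∑ t ∈ (Finset.Icc 1 n).filter (fun t : ℕ => Real.sqrt n ≤ t ∧
      (t : ℝ) ≤ 2 * Real.sqrt n * Real.log n ∧ B < EE n t), 1 / (t * EE n t)
    ≤ 100 / (B * Real.log n) := by
  set A := (Finset.Icc 1 n).filter (fun t : ℕ => Real.sqrt n ≤ t ∧
      (t : ℝ) ≤ 2 * Real.sqrt n * Real.log n ∧ B < EE n t) with hA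
  have ha := tail_al_pos hn
  have ha1 := tail_al_le hn
  have hl := tail_log hn
  have hB0 : 0 < B := by linarith
  have hn0 : (0 : ℝ) < n := by exact_mod_cast (by omega : 0 < n)
  have hs0 : 0 < Real.sqrt n := Real.sqrt_pos.2 hn0
  have hsq : Real.sqrt n * Real.sqrt n = n := Real.mul_self_sqrt hn0.le
  have heq : ∑ t ∈ A, 1 / (t * EE n t) = ∑ t ∈ A, Real.exp (al n * t) / (t : ℝ) ^ 2 := by
    refine Finset.sum_congr rfl fun t ht => ?_
    have ht1 : 1 ≤ t := (Finset.mem_Icc.1 (Finset.mem_filter.1 ht).1).1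
    have ht0 : (t : ℝ) ≠ 0 := by
      have : (1 : ℝ) ≤ t := by exact_mod_cast ht1
      linarith
    unfold EE
    have h3 : Real.exp (-(al n) * t) = (Real.exp (al n * t))⁻¹ := by
      rw [← Real.exp_neg]
      congr 1
      ring
    rw [h3]
    have := (Real.exp_pos (al n * t)).ne'
    field_simp
  rw [heq, ← Finset.sum_filter_add_sum_filter_not A (fun t : ℕ => al n * t ≤ 1 / 4 * Real.log n)]
  have hpart1 : ∑ t ∈ A.filter (fun t : ℕ => al n * t ≤ 1 / 4 * Real.log n),
      Real.exp (al n * t) / (t : ℝ) ^ 2 ≤ 1 / (B * Real.log n) := by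
    have hterm : ∀ t ∈ A.filter (fun t : ℕ => al n * t ≤ 1 / 4 * Real.log n),
        Real.exp (al n * t) / (t : ℝ) ^ 2 ≤ (n : ℝ) ^ (1 / 4 : ℝ) / n := by
      intro t ht
      obtain ⟨ht1, ht2⟩ := Finset.mem_filter.1 ht
      obtain ⟨-, ht3, -, -⟩ := Finset.mem_filter.1 ht1
      apply div_le_div₀ (by positivity) _ hn0 _
      · rw [Real.rpow_def_of_pos hn0]
        apply Real.exp_le_exp.2
        linarith
      · nlinarith
    have hcard : ((A.filter (fun t : ℕ => al n * t ≤ 1 / 4 * Real.log n)).card : ℝ)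
        ≤ 3 * Real.sqrt n * Real.log n := by
      have hsub : A.filter (fun t : ℕ => al n * t ≤ 1 / 4 * Real.log n) ⊆
          Finset.range (⌊2 * Real.sqrt n * Real.log n⌋₊ + 1) := by
        intro t ht
        obtain ⟨ht1, -⟩ := Finset.mem_filter.1 ht
        obtain ⟨-, -, ht4, -⟩ := Finset.mem_filter.1 ht1
        rw [Finset.mem_range]
        exact Nat.lt_succ_of_le (Nat.le_floor ht4)
      have h1 := Finset.card_le_card hsub
      rw [Finset.card_range] at h1
      have h2 : (((⌊2 * Real.sqrt n * Real.log n⌋₊ + 1 : ℕ)) : ℝ)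
          ≤ 2 * Real.sqrt n * Real.log n + 1 := by
        push_cast
        have := Nat.floor_le (show 0 ≤ 2 * Real.sqrt n * Real.log n by positivity)
        linarith
      have h3 : (1 : ℝ) ≤ Real.sqrt n * Real.log n := by
        have h4 : (1 : ℝ) ≤ Real.sqrt n := by
          rw [Real.one_le_sqrt]
          have : (3 : ℝ) ≤ n := by exact_mod_cast hn
          linarith
        nlinarith
      calc ((A.filter (fun t : ℕ => al n * t ≤ 1 / 4 * Real.log n)).card : ℝ)
          ≤ ((⌊2 * Real.sqrt n * Real.log n⌋₊ + 1 : ℕ) : ℝ) := by exact_mod_cast h1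
        _ ≤ 2 * Real.sqrt n * Real.log n + 1 := h2
        _ ≤ 3 * Real.sqrt n * Real.log n := by linarith
    have hq : (n : ℝ) ^ (1 / 4 : ℝ) * (n : ℝ) ^ (1 / 4 : ℝ) = Real.sqrt n := by
      rw [← Real.rpow_add hn0, Real.sqrt_eq_rpow]
      norm_num
    set y := (n : ℝ) ^ (1 / 4 : ℝ) with hy
    have hy0 : 0 < y := Real.rpow_pos_of_pos hn0 _
    calc ∑ t ∈ A.filter (fun t : ℕ => al n * t ≤ 1 / 4 * Real.log n),
          Real.exp (al n * t) / (t : ℝ) ^ 2
        ≤ (A.filter (fun t : ℕ => al n * t ≤ 1 / 4 * Real.log n)).card • (y / n) :=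
          Finset.sum_le_card_nsmul _ _ _ hterm
      _ = ((A.filter (fun t : ℕ => al n * t ≤ 1 / 4 * Real.log n)).card : ℝ) * (y / n) :=
          nsmul_eq_mul _ _
      _ ≤ 3 * Real.sqrt n * Real.log n * (y / n) :=
          mul_le_mul_of_nonneg_right hcard (by positivity)
      _ = 3 * Real.log n / y := by
          have h10 : Real.sqrt n * (y / n) = 1 / y := by
            have h11 : Real.sqrt n * (y / n) = y / Real.sqrt n := by
              have h12 : y / n = y / (Real.sqrt n * Real.sqrt n) := by rw [hsq]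
              rw [h12]
              field_simp
            rw [h11, ← hq]
            field_simp
          have h13 : 3 * Real.sqrt n * Real.log n * (y / n)
              = 3 * Real.log n * (Real.sqrt n * (y / n)) := by ring
          rw [h13, h10]
          ring
      _ ≤ 1 / (B * Real.log n) := by
          rw [div_le_div_iff₀ hy0 (by positivity)]
          nlinarith
  have hpart2 : ∑ t ∈ A.filter (fun t : ℕ => ¬ al n * t ≤ 1 / 4 * Real.log n),
      Real.exp (al n * t) / (t : ℝ) ^ 2 ≤ 99 / (B * Real.log n) := by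
    set A2 := A.filter (fun t : ℕ => ¬ al n * t ≤ 1 / 4 * Real.log n) with hA2
    rcases A2.eq_empty_or_nonempty with he | hne
    · rw [he, Finset.sum_empty]
      positivity
    · have hmem := A2.max'_mem hne
      set m := A2.max' hne with hm
      obtain ⟨hm1, -⟩ := Finset.mem_filter.1 hmem
      obtain ⟨hm1', hm2, hm3, hm4⟩ := Finset.mem_filter.1 hm1
      have h1m : (1 : ℝ) ≤ m := by exact_mod_cast (Finset.mem_Icc.1 hm1').1
      have hm0 : (0 : ℝ) < m := by linarith
      have hexp : Real.exp (al n * m) ≤ m / B := by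
        unfold EE at hm4
        rw [le_div_iff₀ hB0]
        have h3 : Real.exp (-(al n) * m) * Real.exp (al n * m) = 1 := by
          rw [← Real.exp_add]
          have : -(al n) * m + al n * m = 0 := by ring
          rw [this, Real.exp_zero]
        have h4 := mul_lt_mul_of_pos_right hm4 (Real.exp_pos (al n * m))
        rw [mul_assoc, h3, mul_one] at h4
        linarith
      have hterm : ∀ t ∈ A2, Real.exp (al n * t) / (t : ℝ) ^ 2
          ≤ Real.exp (al n * t) * (16 * al n ^ 2 / (Real.log n) ^ 2) := by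
        intro t ht
        obtain ⟨ht1, ht2⟩ := Finset.mem_filter.1 ht
        have ht0 : (0 : ℝ) < t := by
          have : 1 ≤ t := (Finset.mem_Icc.1 (Finset.mem_filter.1 ht1).1).1
          have : (1 : ℝ) ≤ t := by exact_mod_cast this
          linarith
        rw [div_eq_mul_inv]
        apply mul_le_mul_of_nonneg_left _ (Real.exp_pos _).le
        rw [← one_div, div_le_div_iff₀ (by positivity) (by positivity), one_mul]
        have h5 : Real.log n ≤ 4 * (al n * t) := by
          have := not_le.1 ht2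
          linarith
        calc (Real.log n) ^ 2 ≤ (4 * (al n * t)) ^ 2 := by
              apply pow_le_pow_left₀ (by linarith) h5
          _ = 16 * al n ^ 2 * (t : ℝ) ^ 2 := by ring
      have halm : al n * m ≤ 3 * Real.log n := by
        have h6 : al n * Real.sqrt n ≤ 3 / 2 := by
          unfold al
          rw [Real.sqrt_mul (by norm_num : (0 : ℝ) ≤ 6), div_mul_eq_mul_div,
            div_le_iff₀ (by positivity)]
          have h7 : (2.4 : ℝ) ≤ Real.sqrt 6 := by
            apply Real.le_sqrt_of_sq_le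
            norm_num
          have h8 := Real.pi_lt_d2
          nlinarith
        calc al n * m ≤ al n * (2 * Real.sqrt n * Real.log n) :=
              mul_le_mul_of_nonneg_left hm3 ha.le
          _ = al n * Real.sqrt n * (2 * Real.log n) := by ring
          _ ≤ 3 / 2 * (2 * Real.log n) := mul_le_mul_of_nonneg_right h6 (by linarith)
          _ = 3 * Real.log n := by ring
      calc ∑ t ∈ A2, Real.exp (al n * t) / (t : ℝ) ^ 2
          ≤ ∑ t ∈ A2, Real.exp (al n * t) * (16 * al n ^ 2 / (Real.log n) ^ 2) :=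
            Finset.sum_le_sum hterm
        _ = (∑ t ∈ A2, Real.exp (al n * t)) * (16 * al n ^ 2 / (Real.log n) ^ 2) :=
            (Finset.sum_mul _ _ _).symm
        _ ≤ (Real.exp (al n * m) * (2 / al n)) * (16 * al n ^ 2 / (Real.log n) ^ 2) := by
            apply mul_le_mul_of_nonneg_right _ (by positivity)
            exact tail_geo' ha ha1 A2 m fun t ht => A2.le_max' t ht
        _ ≤ (m / B * (2 / al n)) * (16 * al n ^ 2 / (Real.log n) ^ 2) := by
            apply mul_le_mul_of_nonneg_right _ (by positivity)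
            apply mul_le_mul_of_nonneg_right hexp (by positivity)
        _ = 32 * (al n * m) / (B * (Real.log n) ^ 2) := by
            field_simp
            norm_num
        _ ≤ 32 * (3 * Real.log n) / (B * (Real.log n) ^ 2) := by
            apply div_le_div_of_nonneg_right _ (by positivity)
            linarith
        _ = 96 / (B * Real.log n) := by
            field_simp
            norm_num
        _ ≤ 99 / (B * Real.log n) := by
            apply div_le_div_of_nonneg_right _ (by positivity)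
            norm_num
  have hfin : 1 / (B * Real.log n) + 99 / (B * Real.log n) = 100 / (B * Real.log n) := by
    ring
  linarith

theorem st_TAIL : ST_TAIL := by
  refine ⟨100, by norm_num, ?_⟩
  intro B hB
  filter_upwards [tail_ev B hB] with n hn
  refine ⟨(tail_one hB hn.1).trans ?_, tail_two hB hn.1 hn.2⟩
  have hl := tail_log hn.1
  have hB0 : 0 < B := by linarith
  apply div_le_div_of_nonneg_right _ (by positivity)
  norm_num

end Pool.Agent.Helper79.ZC
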